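import Pool.Agent.H812.Tm.Spec4

/-! Growth for good level functions, all distances (`SRG`). -/

set_option autoImplicit false

open Real Filter Topology Set
open scoped ContDiff

namespace Pool.Agent.H619.Tm

open Pool.Agent.W811.Stu Pool.Agent.H812.Tm

theorem tSRG (h1 : SRGY) (h2 : SRev) (h3 : SAl) (h4 : SRGT) : SRG := by
  intro δ κ hδ hκ hκc
  obtain ⟨C1, hC1, h1⟩ := h1 δ κ hδ hκ.le hκc
  obtain ⟨C2, hC2, h2⟩ := h2 δ κ hδ (by linarith) hκc
  obtain ⟨C4, hC4, h4⟩ := h4 δ κ κ hδ hκ.le hκc hκ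
  set C0 : ℝ := max 1 (max C2 C4) with hC0
  have e0 : 1 ≤ C0 := le_max_left _ _
  have e2 : C2 ≤ C0 := (le_max_left _ _).trans (le_max_right _ _)
  have e4 : C4 ≤ C0 := (le_max_right _ _).trans (le_max_right _ _)
  refine ⟨max C1 (2 * C0 ^ 3), lt_max_of_lt_left hC1, fun d hd m M hm hmM v hv hYm hYM => ?_⟩
  have hz : |(ze δ v).z| ≤ κ := by
    have : |v.1| < 1 := hv
    change |v.1| ≤ κ
    linarith
  -- the claim for all distances, with a worse constant
  have claim : ∀ n m, 1 ≤ m → |Yf δ d m v| ≤ κ → |Yf δ d (m + n) v| ≤ κ →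
      |dt (Yf δ d m) v| ≤ C0 ^ n * |dt (Yf δ d (m + n)) v| := by
    intro n
    induction n using Nat.strong_induction_on with
    | _ n ih =>
    intro m hm ha hb
    rcases n with _ | n
    · simp
    by_cases hc : |Yf δ d (m + 1) v| ≤ κ
    · have f1 := h2 d hd m (d m) hm (hd m) v hv (by rw [Tf_last]; exact hc)
      rw [Tf_last] at f1
      have f2 := ih n (Nat.lt_succ_self n) (m + 1) (by omega) hc
        (by rw [show m + 1 + n = m + (n + 1) by omega]; exact hb)
      rw [show m + 1 + n = m + (n + 1) by omega] at f2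
      calc |dt (Yf δ d m) v| ≤ C2 * |dt (Yf δ d (m + 1)) v| := f1
        _ ≤ C0 * |dt (Yf δ d (m + 1)) v| := mul_le_mul_of_nonneg_right e2 (abs_nonneg _)
        _ ≤ C0 * (C0 ^ n * |dt (Yf δ d (m + (n + 1))) v|) :=
          mul_le_mul_of_nonneg_left f2 (by linarith)
        _ = C0 ^ (n + 1) * |dt (Yf δ d (m + (n + 1))) v| := by ring
    · have hc' : κ ≤ |Yf δ d (m + 1) v| := (not_le.1 hc).le
      rcases n with _ | n
      · exact absurd hb hc
      have hg : |Yf δ d (m + 2) v| ≤ κ := by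
        rcases Nat.eq_zero_or_pos n with hn | hn
        · subst hn
          exact hb
        · rcases h3 κ hκ.le d hd (ze δ v) hz (m + (n + 1 + 1)) hb (m + 1) (by omega) with h | h
          · exact absurd h hc
          · exact h
      have f1 := h4 d hd (m + 1) 0 (d (m + 1)) (Nat.zero_le _) v hv hc'
        (by rw [Tf_zero]; exact ha) (by rw [Tf_last]; exact hg)
      rw [Tf_zero, Tf_last] at f1
      have f2 := ih n (by omega) (m + 2) (by omega) hg
        (by rw [show m + 2 + n = m + (n + 1 + 1) by omega]; exact hb)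
      rw [show m + 2 + n = m + (n + 1 + 1) by omega] at f2
      have f3 : (1 : ℝ) ≤ κ ^ (d (m + 1) - 0) := one_le_pow₀ hκ.le
      have f4 : |dt (Yf δ d m) v| ≤ |dt (Yf δ d m) v| * κ ^ (d (m + 1) - 0) :=
        le_mul_of_one_le_right (abs_nonneg _) f3
      have f5 : C0 ^ (n + 1) ≤ C0 ^ (n + 1 + 1) := pow_le_pow_right₀ e0 (by omega)
      calc |dt (Yf δ d m) v| ≤ C4 * |dt (Yf δ d (m + 2)) v| := f4.trans f1
        _ ≤ C0 * |dt (Yf δ d (m + 2)) v| := mul_le_mul_of_nonneg_right e4 (abs_nonneg _)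
        _ ≤ C0 * (C0 ^ n * |dt (Yf δ d (m + (n + 1 + 1))) v|) :=
          mul_le_mul_of_nonneg_left f2 (by linarith)
        _ = C0 ^ (n + 1) * |dt (Yf δ d (m + (n + 1 + 1))) v| := by ring
        _ ≤ C0 ^ (n + 1 + 1) * |dt (Yf δ d (m + (n + 1 + 1))) v| :=
          mul_le_mul_of_nonneg_right f5 (abs_nonneg _)
  rcases le_or_gt (m + 4) M with hM | hM
  · refine (h1 d hd m M hm hM v hv hYm hYM).trans ?_
    exact mul_le_mul_of_nonneg_right (le_max_left _ _) (abs_nonneg _)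
  · have g1 := claim (M - m) m hm hYm (by rw [show m + (M - m) = M by omega]; exact hYM)
    rw [show m + (M - m) = M by omega] at g1
    have g2 : (2 : ℝ) ^ ((M - m) / 2) ≤ 2 := by
      calc (2 : ℝ) ^ ((M - m) / 2) ≤ 2 ^ 1 := pow_le_pow_right₀ (by norm_num) (by omega)
        _ = 2 := pow_one 2
    have g3 : C0 ^ (M - m) ≤ C0 ^ 3 := pow_le_pow_right₀ e0 (by omega)
    have g4 : 0 ≤ |dt (Yf δ d M) v| := abs_nonneg _
    calc |dt (Yf δ d m) v| * 2 ^ ((M - m) / 2)
        ≤ |dt (Yf δ d m) v| * 2 := mul_le_mul_of_nonneg_left g2 (abs_nonneg _)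
      _ ≤ (C0 ^ (M - m) * |dt (Yf δ d M) v|) * 2 := mul_le_mul_of_nonneg_right g1 (by norm_num)
      _ ≤ (C0 ^ 3 * |dt (Yf δ d M) v|) * 2 :=
        mul_le_mul_of_nonneg_right (mul_le_mul_of_nonneg_right g3 g4) (by norm_num)
      _ = (2 * C0 ^ 3) * |dt (Yf δ d M) v| := by ring
      _ ≤ max C1 (2 * C0 ^ 3) * |dt (Yf δ d M) v| :=
        mul_le_mul_of_nonneg_right (le_max_right _ _) g4

end Pool.Agent.H619.Tm
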